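import Pool.Agent.Helper88.CG.Goals
import Pool.Agent.Helper24.PP.MA
import Pool.Agent.Helper51.PP.RH
import Pool.Agent.Helper74.PP.TL

/-!
# Packet CG-BT: an upper bound for the number of primes in a class
-/

set_option autoImplicit false

open Finset Filter Topology

open scoped Classical

namespace Pool.Agent.Helper48.CG

open Pool.Agent.Helper88.CG
open Pool.Agent.Helper88.PP (pr Rg om Sf SS uu vv ee LA VV QQ cost StmtMA StmtRH GoodR)
open Pool.Agent.Helper88.RR (gg ab TB WB nz DB VM)
open Pool.Agent.Helper88.GM (NI XI gB Sr In)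

lemma log_bound {c c2 : ℝ} (hc : 0 < c) (hc2 : 0 < c2) : ∃ E0 : ℕ, ∀ E : ℕ, E0 ≤ E → ∀ t : ℝ,
    t ^ 3 ≤ E → c2 * Real.exp t * E ≤ Real.exp (c * E) := by
  have h1 : ∀ᶠ E : ℕ in atTop, c2 * (E : ℝ) ≤ Real.exp (c / 2 * E) := by
    have h2 : Tendsto (fun u : ℝ => u ^ 1 * Real.exp (-u)) atTop (𝓝 0) :=
      Real.tendsto_pow_mul_exp_neg_atTop_nhds_zero 1
    have h3 : Tendsto (fun E : ℕ => c / 2 * (E : ℝ)) atTop atTop :=
      tendsto_natCast_atTop_atTop.const_mul_atTop (by positivity)
    have h4 := (h2.comp h3).eventually_lt_const (u := c / 2 / c2) (by positivity)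
    filter_upwards [h4] with E hE
    simp only [Function.comp_apply, pow_one] at hE
    rw [Real.exp_neg, ← div_eq_mul_inv, div_lt_iff₀ (Real.exp_pos _)] at hE
    have h5 : c / 2 / c2 * Real.exp (c / 2 * E) * c2 = c / 2 * Real.exp (c / 2 * E) := by
      field_simp
    have h6 : c / 2 * (E : ℝ) * c2 ≤ c / 2 * Real.exp (c / 2 * E) := by
      rw [← h5]
      exact mul_le_mul_of_nonneg_right hE.le hc2.le
    have h7 : c / 2 * (c2 * E) ≤ c / 2 * Real.exp (c / 2 * E) := by linarith
    exact le_of_mul_le_mul_left h7 (by positivity)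
  have h8 : ∀ᶠ E : ℕ in atTop, 1 < (c / 2) ^ 3 * (E : ℝ) ^ 2 := by
    have h3 : Tendsto (fun E : ℕ => (c / 2) ^ 3 * (E : ℝ) ^ 2) atTop atTop :=
      ((tendsto_pow_atTop (by norm_num)).comp tendsto_natCast_atTop_atTop).const_mul_atTop
        (by positivity)
    exact h3.eventually_gt_atTop 1
  obtain ⟨E0, hE0⟩ := eventually_atTop.1 (h1.and (h8.and (eventually_ge_atTop 1)))
  refine ⟨E0, fun E hE t ht => ?_⟩
  obtain ⟨k1, k2, k3⟩ := hE0 E hE
  have hEpos : (0 : ℝ) < E := by exact_mod_cast (by omega : 0 < E)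
  have ht' : t ≤ c / 2 * E := by
    by_contra hcon
    push Not at hcon
    have h9 : (c / 2 * E) ^ 3 < t ^ 3 := pow_lt_pow_left₀ hcon (by positivity) (by norm_num)
    have h10 : (E : ℝ) < (c / 2 * E) ^ 3 := by
      have : (c / 2 * E) ^ 3 = ((c / 2) ^ 3 * (E : ℝ) ^ 2) * E := by ring
      rw [this]
      nlinarith
    linarith
  calc c2 * Real.exp t * E = Real.exp t * (c2 * E) := by ring
    _ ≤ Real.exp (c / 2 * E) * Real.exp (c / 2 * E) :=
        mul_le_mul (Real.exp_le_exp.2 ht') k1 (by positivity) (Real.exp_pos _).le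
    _ = Real.exp (c * E) := by
        rw [← Real.exp_add]
        congr 1
        ring

lemma gg_one (y z : ℕ) : gg y z 1 = om y z := by
  simp [gg, om]

theorem bt (h : StmtTG) : StmtBT := by
  obtain ⟨c, hc, E1, hTG⟩ := h
  obtain ⟨cM, CM, hcM, -, hMA⟩ := Pool.Agent.Helper24.PP.ma
  obtain ⟨c2, hc2, hom⟩ := Pool.Agent.Helper74.PP.om_lower
  obtain ⟨q, hq1, hGood⟩ := Pool.Agent.Helper51.PP.rh Pool.Agent.Helper24.PP.ma 1
  obtain ⟨E2, hE2⟩ := log_bound hc hc2
  refine ⟨64 / cM + 1, by positivity, max (max E1 E2) (max (16 * q) 64), ?_⟩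
  intro E z x y hE hSr b hb j hj
  have hE1 : E1 ≤ E := (le_max_left _ _).trans ((le_max_left _ _).trans hE)
  have hE2' : E2 ≤ E := (le_max_right _ _).trans ((le_max_left _ _).trans hE)
  have hEq : 16 * q ≤ E := (le_max_left _ _).trans ((le_max_right _ _).trans hE)
  have hE64 : 64 ≤ E := (le_max_right _ _).trans ((le_max_right _ _).trans hE)
  have hEpos : (0 : ℝ) < E := by exact_mod_cast (by omega : 0 < E)
  obtain ⟨s1, s2, s3, s4, s5, s6⟩ := id hSr
  -- `z` is large
  have hz64 : 64 ≤ z := by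
    have h1 : (64 : ℝ) ≤ E := by exact_mod_cast hE64
    have h2 : (E : ℝ) + 1 ≤ Real.exp E := Real.add_one_le_exp _
    have h3 : (64 : ℝ) ≤ z := by linarith
    exact_mod_cast h3
  have hz2 : 2 ≤ z := by omega
  have hzx : 32 * z ^ (E / 32) < x := by
    have h1 : 32 * z ^ (E / 32) < z ^ (E / 32 + 1) := by
      rw [pow_succ, mul_comm]
      exact Nat.mul_lt_mul_of_pos_left (by omega) (by positivity)
    exact h1.trans_le ((Nat.pow_le_pow_right (by omega) (by omega)).trans s2)
  have hzx' : 32 * z < x := by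
    have h1 : 32 * z ^ 1 ≤ 32 * z ^ (E / 32) := by
      apply Nat.mul_le_mul_left
      exact Nat.pow_le_pow_right (by omega) (by omega)
    rw [pow_one] at h1
    omega
  have hVMlo : cM * (E / 64 : ℝ) ≤ VM (E / 32) z := by
    have h1 := (hMA z (E / 32) hz2 (by omega)).1
    refine le_trans ?_ h1
    refine mul_le_mul_of_nonneg_left ?_ hcM.le
    have h2 : E ≤ 64 * (E / 32) := by omega
    have h3 : (E : ℝ) ≤ 64 * ((E / 32 : ℕ) : ℝ) := by exact_mod_cast h2
    linarith
  have hVM0 : 0 < VM (E / 32) z := lt_of_lt_of_le (by positivity) hVMlo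
  set V := VM (E / 32) z with hV
  set L := SS z (z ^ (E / 32)) with hL
  set P : Finset ℕ := {j} with hP
  have hcardP : Fintype.card P = 1 := by simp [hP]
  let i0 : P := ⟨j, by simp [hP]⟩
  set T : Finset (P → ℕ) := L.image (fun s => fun _ => s) with hT
  have hinj : Function.Injective (fun s : ℕ => (fun _ : P => s)) := by
    intro s s' hs
    exact congrFun hs i0
  let a : (P → ℕ) → ℝ := fun r => ∏ i, 1 / (V * (Nat.totient (r i) : ℝ))
  have ha : ∀ s, a (fun _ => s) = 1 / (V * (Nat.totient s : ℝ)) := by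
    intro s
    simp only [a]
    rw [Finset.prod_const, Finset.card_univ, hcardP, pow_one]
  have hsumT : ∀ f : (P → ℕ) → ℝ, ∑ r ∈ T, f r = ∑ s ∈ L, f (fun _ => s) := by
    intro f
    rw [hT, Finset.sum_image (fun s _ s' _ hs => hinj hs)]
  have hmemT : ∀ r ∈ T, ∃ s ∈ L, r = fun _ => s := by
    intro r hr
    obtain ⟨s, hs, rfl⟩ := Finset.mem_image.1 hr
    exact ⟨s, hs, rfl⟩
  have hL1 : ∀ s ∈ L, 1 ≤ s ∧ s < z ^ (E / 32) ∧ Sf z s := by
    intro s hs
    rw [hL, SS, Finset.mem_filter, Finset.mem_Ico] at hs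
    exact ⟨hs.1.1, hs.1.2, hs.2⟩
  have hom1 := hom y z hz2
  have hmain := hTG E z x y hE1 hSr (x / 32) x (QQ x) b ⟨dvd_rfl, hb, by omega⟩ 1 q 1 le_rfl
    (by omega) (hGood 1 z le_rfl hz2) (by omega) P (by
      intro i hi
      rw [hP, Finset.mem_singleton] at hi
      rw [hi]
      exact hj) (by
      rw [hP, Finset.card_singleton, Nat.cast_one, one_mul]
      refine hom1.2.trans ?_
      have : (1 : ℝ) ≤ E := by exact_mod_cast (by omega : 1 ≤ E)
      nlinarith) T a univ ∅ (by rw [Finset.card_univ, hcardP]; norm_num) (by simp)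
      (Finset.disjoint_empty_right _) (fun r _ i hi => absurd (Finset.mem_univ i) hi)
      (fun r hr i _ => by
        obtain ⟨s, hs, rfl⟩ := hmemT r hr
        exact hs) (fun r _ i hi => absurd hi (Finset.notMem_empty i)) (fun r hr => by
        unfold nz
        refine (Finset.card_filter_le _ _).trans ?_
        rw [Finset.card_univ, hcardP]) (fun r hr => by
        obtain ⟨s, hs, rfl⟩ := hmemT r hr
        obtain ⟨h1, h2, h3⟩ := hL1 s hs
        rw [Finset.prod_const, Finset.card_univ, hcardP, pow_one, max_eq_right h1]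
        exact h2.le.trans (Nat.pow_le_pow_right (by omega) (by omega))) (fun r hr => by
        simp only [a]
        rw [abs_of_nonneg (Finset.prod_nonneg fun i _ => by positivity)]
        refine le_of_eq (Finset.prod_congr rfl fun i _ => ?_)
        rw [if_pos (Finset.mem_univ i)])
  rw [hsumT] at hmain
  -- the main term
  have hterm : ∑ s ∈ L, a (fun _ => s) ^ 2 *
      (gg y z (nz (fun _ : P => s)) * ∏ i : P, (if s = 0 then 1 else (Nat.totient s : ℝ))) =
      om y z / V := by
    have e1 : ∀ s ∈ L, a (fun _ => s) ^ 2 *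
      (gg y z (nz (fun _ : P => s)) * ∏ i : P, (if s = 0 then 1 else (Nat.totient s : ℝ))) =
      om y z / V ^ 2 * (1 / (Nat.totient s : ℝ)) := by
      intro s hs
      obtain ⟨h1, h2, h3⟩ := hL1 s hs
      have hs0 : s ≠ 0 := by omega
      have hφ : (0 : ℝ) < Nat.totient s := by exact_mod_cast Nat.totient_pos.2 h1
      have hnz : nz (fun _ : P => s) = 1 := by
        unfold nz
        rw [Finset.filter_true_of_mem (fun i _ => hs0), Finset.card_univ, hcardP]
      rw [ha, hnz, gg_one, Finset.prod_const, Finset.card_univ, hcardP, pow_one, if_neg hs0]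
      field_simp
    rw [Finset.sum_congr rfl e1, ← Finset.mul_sum]
    have e2 : ∑ s ∈ L, 1 / (Nat.totient s : ℝ) = V := rfl
    rw [e2]
    field_simp
  rw [hterm] at hmain
  -- the values at the primes
  have hXI : 0 ≤ XI (x / 32) x (QQ x) := by
    unfold XI
    positivity
  have hval : ∀ n ∈ (NI (x / 32) x (QQ x) b).filter (fun n => (n + j).Prime),
      ∑ r ∈ T, a r * ∏ i, vv y z (r i) (n + (i : ℕ)) = 1 := by
    intro n hn
    rw [Finset.mem_filter] at hn
    obtain ⟨hn1, hp⟩ := hn
    have hn2 : x / 32 < n := (Finset.mem_Ioc.1 (Finset.mem_filter.1 hn1).1).1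
    have hnx : x < 32 * (n + j) := by omega
    rw [hsumT]
    have e1 : ∀ s ∈ L, a (fun _ => s) * ∏ i : P, vv y z s (n + (i : ℕ)) =
        1 / V * (1 / (Nat.totient s : ℝ)) := by
      intro s hs
      obtain ⟨h1, h2, h3⟩ := hL1 s hs
      rw [ha, Finset.prod_coe_sort P (fun i => vv y z s (n + i)), hP, Finset.prod_singleton]
      have hvv : vv y z s (n + j) = 1 := by
        unfold vv
        rw [if_neg (by omega), if_pos]
        · unfold uu
          refine Finset.prod_eq_one fun p hp' => ?_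
          rw [if_neg, sub_zero]
          intro hdvd
          have hpp := Nat.prime_of_mem_primeFactors hp'
          have hps : p ≤ s := Nat.le_of_dvd (by omega) (Nat.dvd_of_mem_primeFactors hp')
          rcases (Nat.dvd_prime hp).1 hdvd with h5 | h5
          · exact hpp.one_lt.ne' h5
          · omega
        · intro p hp' hdvd
          have hp'' := Finset.mem_filter.1 hp'
          have hpz := (Finset.mem_Ioc.1 hp''.1).2
          rcases (Nat.dvd_prime hp).1 hdvd with h5 | h5
          · exact hp''.2.one_lt.ne' h5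
          · omega
      rw [hvv, mul_one, one_div_mul_one_div]
    rw [Finset.sum_congr rfl e1, ← Finset.mul_sum]
    have e2 : ∑ s ∈ L, 1 / (Nat.totient s : ℝ) = V := rfl
    rw [e2, one_div, inv_mul_cancel₀ hVM0.ne']
  have hcard : (((NI (x / 32) x (QQ x) b).filter (fun n => (n + j).Prime)).card : ℝ) ≤
      ∑ n ∈ NI (x / 32) x (QQ x) b, (∑ r ∈ T, a r * ∏ i, vv y z (r i) (n + (i : ℕ))) ^ 2 := by
    rw [Finset.card_eq_sum_ones, Nat.cast_sum]
    refine le_trans (le_of_eq (Finset.sum_congr rfl fun n hn => ?_))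
      (Finset.sum_le_sum_of_subset_of_nonneg (Finset.filter_subset _ _)
        fun n _ _ => sq_nonneg _)
    rw [hval n hn]
    norm_num
  have hup := (abs_le.1 hmain).2
  -- the error term
  have hx1 : (1 : ℝ) < x := by exact_mod_cast (by omega : 1 < x)
  have hlogx : 0 < Real.log x := Real.log_pos hx1
  have hz1 : (1 : ℝ) < z := by exact_mod_cast (by omega : 1 < z)
  have hlogz : 0 < Real.log z := Real.log_pos hz1
  have herr : Real.exp (-(c * E)) ≤ om y z / E := by
    have h1 := hE2 E hE2' (Real.log (Real.log x)) s6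
    rw [Real.exp_log hlogx] at h1
    have h2 : Real.log z ≤ Real.log x :=
      Real.log_le_log (by linarith) (by exact_mod_cast (by omega : z ≤ x))
    have h3 : 1 / (c2 * Real.log x) ≤ om y z :=
      (one_div_le_one_div_of_le (by positivity) (mul_le_mul_of_nonneg_left h2 hc2.le)).trans hom1.1
    rw [Real.exp_neg, le_div_iff₀ hEpos]
    refine le_trans ?_ h3
    rw [inv_mul_eq_div, div_le_div_iff₀ (Real.exp_pos _) (by positivity), one_mul]
    linarith
  have hVinv : om y z / V ≤ 64 / cM * (om y z / E) := by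
    have hom0 : 0 ≤ om y z := le_trans (by positivity) hom1.1
    have h1 : om y z / V ≤ om y z / (cM * (E / 64 : ℝ)) :=
      div_le_div_of_nonneg_left hom0 (by positivity) hVMlo
    refine h1.trans (le_of_eq ?_)
    field_simp
  calc (((NI (x / 32) x (QQ x) b).filter (fun n => (n + j).Prime)).card : ℝ)
      ≤ XI (x / 32) x (QQ x) * (om y z / V) + Real.exp (-(c * E)) * XI (x / 32) x (QQ x) := by
        linarith
    _ ≤ XI (x / 32) x (QQ x) * (64 / cM * (om y z / E)) +
        (om y z / E) * XI (x / 32) x (QQ x) :=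
        add_le_add (mul_le_mul_of_nonneg_left hVinv hXI) (mul_le_mul_of_nonneg_right herr hXI)
    _ = (64 / cM + 1) * (XI (x / 32) x (QQ x) * (om y z / E)) := by ring

end Pool.Agent.Helper48.CG
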